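import Pool.Agent.Q124.Cups.Chain

/-! MP_28cddd_co, Q1 and Q2: for every `r` there are connected graphs `G_1 ≤ … ≤ G_r` on one finite
vertex set such that `G_i` is stackable for odd `i` and strongly non-stackable for even `i`. -/

set_option autoImplicit false

namespace Pool.Agent.Results.MP_28cddd_co.LongAlternatingChains

open Pool.Agent.Q124.Cups

theorem result (r : ℕ) :
    ∃ (V : Type) (_ : Fintype V) (_ : DecidableEq V) (G : ℕ → SimpleGraph V),
      (∀ i, 1 ≤ i → i ≤ r → (G i).Connected) ∧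
      (∀ i, 1 ≤ i → i < r → G i ≤ G (i + 1)) ∧
      (∀ i, 1 ≤ i → i ≤ r → Odd i → ∀ t, StackableAt (G i) t) ∧
      (∀ i, 1 ≤ i → i ≤ r → Even i → ∀ t, ¬ StackableAt (G i) t) :=
  chain r

end Pool.Agent.Results.MP_28cddd_co.LongAlternatingChains
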